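import Mathlib

set_option autoImplicit false

/-!
Colouring graphs without a `K*_{r,s}` minor by removing small connected dominating sets.
-/

namespace Pool.Agent.Lib.MP_5babb6_co

open Finset Classical

variable {V : Type}

/-- Inside `X` there are `r` pairwise disjoint connected sets, any two joined by an edge, and `s`
further vertices, each with a neighbour in each of these sets. -/
def HasStarIn (G : SimpleGraph V) (r s : ℕ) (X : Set V) : Prop :=
  ∃ A : Fin r → Set V, ∃ B : Finset V, B.card = s ∧ (∀ i, A i ⊆ X) ∧ (↑B ⊆ X) ∧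
    (∀ i, (G.induce (A i)).Connected) ∧ (∀ i j, i ≠ j → Disjoint (A i) (A j)) ∧
    (∀ i j, i ≠ j → ∃ x ∈ A i, ∃ y ∈ A j, G.Adj x y) ∧
    (∀ i, ∀ b ∈ B, b ∉ A i ∧ ∃ x ∈ A i, G.Adj x b)

lemma HasStarIn.mono {G : SimpleGraph V} {r s : ℕ} {X Y : Set V} (h : HasStarIn G r s X)
    (hXY : X ⊆ Y) : HasStarIn G r s Y := by
  obtain ⟨A, B, h1, h2, h3, h4⟩ := h
  exact ⟨A, B, h1, fun i => (h2 i).trans hXY, h3.trans hXY, h4⟩

lemma card_lt_of_not_star {G : SimpleGraph V} {s : ℕ} {X : Finset V}
    (h : ¬ HasStarIn G 0 s (X : Set V)) : X.card < s := by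
  by_contra hc
  push Not at hc
  obtain ⟨B, hB, hBs⟩ := Finset.exists_subset_card_eq hc
  exact h ⟨Fin.elim0, B, hBs, fun i => i.elim0, by exact_mod_cast hB, fun i => i.elim0,
    fun i => i.elim0, fun i => i.elim0, fun i => i.elim0⟩

lemma HasStarIn.succ {G : SimpleGraph V} {j s : ℕ} {X Y D : Set V} (h : HasStarIn G j s Y)
    (hD : (G.induce D).Connected) (hDX : D ⊆ X) (hYX : Y ⊆ X) (hDY : Disjoint D Y)
    (hdom : ∀ y ∈ Y, ∃ d ∈ D, G.Adj d y) : HasStarIn G (j + 1) s X := by
  obtain ⟨A, B, hB, hAY, hBY, hAc, hAd, hAA, hAB⟩ := h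
  refine ⟨Fin.cons D A, B, hB, ?_, hBY.trans hYX, ?_, ?_, ?_, ?_⟩
  · intro i
    refine Fin.cases ?_ (fun i => ?_) i
    · simpa using hDX
    · simpa using (hAY i).trans hYX
  · intro i
    refine Fin.cases ?_ (fun i => ?_) i
    · exact hD
    · exact hAc i
  · intro i k
    refine Fin.cases ?_ (fun i => ?_) i
    · refine Fin.cases ?_ (fun k => ?_) k
      · intro h
        exact (h rfl).elim
      · intro _
        simpa using hDY.mono_right (hAY k)
    · refine Fin.cases ?_ (fun k => ?_) k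
      · intro _
        simpa using (hDY.mono_right (hAY i)).symm
      · intro h
        simpa using hAd i k (fun e => h (by rw [e]))
  · intro i k
    refine Fin.cases ?_ (fun i => ?_) i
    · refine Fin.cases ?_ (fun k => ?_) k
      · intro h
        exact (h rfl).elim
      · intro _
        obtain ⟨⟨y, hy⟩⟩ := (hAc k).nonempty
        obtain ⟨d, hd, hdy⟩ := hdom y (hAY k hy)
        exact ⟨d, by simpa using hd, y, by simpa using hy, hdy⟩
    · refine Fin.cases ?_ (fun k => ?_) k
      · intro _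
        obtain ⟨⟨y, hy⟩⟩ := (hAc i).nonempty
        obtain ⟨d, hd, hdy⟩ := hdom y (hAY i hy)
        exact ⟨y, by simpa using hy, d, by simpa using hd, hdy.symm⟩
      · intro h
        simpa using hAA i k (fun e => h (by rw [e]))
  · intro i b hb
    refine Fin.cases ?_ (fun i => ?_) i
    · have hbY := hBY (by exact_mod_cast hb : b ∈ (B : Set V))
      refine ⟨?_, ?_⟩
      · simpa using fun hbD => (Set.disjoint_left.1 hDY) hbD hbY
      · obtain ⟨d, hd, hdb⟩ := hdom b hbY
        exact ⟨d, by simpa using hd, hdb⟩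
    · simpa using hAB i b hb

lemma connected_singleton (G : SimpleGraph V) (v : V) : (G.induce {v}).Connected := by
  have : Nonempty ({v} : Set V) := ⟨⟨v, rfl⟩⟩
  rw [SimpleGraph.induce_singleton_eq_top]
  exact SimpleGraph.connected_top

/-- A clique `A₀` and vertices outside it that are complete to it. -/
lemma star_of_clique {G : SimpleGraph V} {r s : ℕ} (A₀ B : Finset V) (hA : A₀.card = r)
    (hB : B.card = s) (hAA : ∀ a ∈ A₀, ∀ b ∈ A₀, a ≠ b → G.Adj a b)
    (hAB : ∀ a ∈ A₀, ∀ b ∈ B, b ≠ a ∧ G.Adj a b) : HasStarIn G r s Set.univ := by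
  obtain ⟨e⟩ : Nonempty (Fin r ≃ A₀) := by
    rw [← Fintype.card_eq]
    simp [hA]
  refine ⟨fun i => {(e i : V)}, B, hB, fun i => Set.subset_univ _, Set.subset_univ _,
    fun i => connected_singleton G _, ?_, ?_, ?_⟩
  · intro i j hij
    rw [Set.disjoint_singleton]
    intro h
    exact hij (e.injective (Subtype.ext h))
  · intro i j hij
    refine ⟨_, rfl, _, rfl, hAA _ (e i).2 _ (e j).2 ?_⟩
    intro h
    exact hij (e.injective (Subtype.ext h))
  · intro i b hb
    have := hAB _ (e i).2 b hb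
    exact ⟨by simpa using this.1, _, rfl, this.2⟩

/-- In a colouring with the least number of colours each class has a vertex adjacent to all
singleton classes. -/
lemma minCol (W : Finset V) (R : V → V → Prop) (hsym : ∀ x y, R x y → R y x) (k : ℕ) (c : V → ℕ)
    (hc : ∀ v ∈ W, c v < k) (hp : ∀ v ∈ W, ∀ w ∈ W, R v w → c v ≠ c w)
    (hmin : ¬ ∃ c' : V → ℕ, (∀ v ∈ W, c' v < k - 1) ∧
      ∀ v ∈ W, ∀ w ∈ W, R v w → c' v ≠ c' w) :
    ∀ i < k, ∃ w ∈ W, c w = i ∧
      ∀ u ∈ W, (∀ v ∈ W, c v = c u → v = u) → u ≠ w → R w u := by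
  intro i hi
  by_contra hcon
  push Not at hcon
  choose! u hu using hcon
  apply hmin
  obtain ⟨c1, hc1⟩ : ∃ c1 : V → ℕ, c1 = fun v => if c v = i then c (u v) else c v := ⟨_, rfl⟩
  have h1 : ∀ v ∈ W, c1 v < k := by
    intro v hv
    rw [hc1]
    dsimp only
    split_ifs with h
    · exact hc _ (hu v hv h).1
    · exact hc v hv
  have h2 : ∀ v ∈ W, c1 v ≠ i := by
    intro v hv
    rw [hc1]
    dsimp only
    split_ifs with h
    · intro h3
      obtain ⟨g1, g2, g3, g4⟩ := hu v hv h
      exact g3 (g2 v hv (by rw [h, h3])).symm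
    · exact h
  have key : ∀ v ∈ W, ∀ w ∈ W, R v w → c v = i → c w ≠ i → c1 v ≠ c1 w := by
    intro v hv w hw hR h h' h3
    rw [hc1] at h3
    dsimp only at h3
    rw [if_pos h, if_neg h'] at h3
    obtain ⟨g1, g2, g3, g4⟩ := hu v hv h
    have := g2 w hw h3.symm
    rw [← this] at g4
    exact g4 hR
  have h3 : ∀ v ∈ W, ∀ w ∈ W, R v w → c1 v ≠ c1 w := by
    intro v hv w hw hR
    by_cases h : c v = i
    · by_cases h' : c w = i
      · exact (hp v hv w hw hR (h.trans h'.symm)).elim
      · exact key v hv w hw hR h h'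
    · by_cases h' : c w = i
      · exact (key w hw v hv (hsym _ _ hR) h' h).symm
      · rw [hc1]
        dsimp only
        rw [if_neg h, if_neg h']
        exact hp v hv w hw hR
  refine ⟨fun v => if c1 v = k - 1 then i else c1 v, ?_, ?_⟩
  · intro v hv
    dsimp only
    have e1 := h1 v hv
    have e2 := h2 v hv
    split_ifs with h
    · omega
    · omega
  · intro v hv w hw hR
    dsimp only
    have e1 := h2 v hv
    have e2 := h2 w hw
    have e3 := h3 v hv w hw hR
    split_ifs with h h' h'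
    · exact (e3 (h.trans h'.symm)).elim
    · exact e2.symm
    · exact e1
    · exact e3

/-- Number of singleton classes. -/
lemma count_single (P Z : Finset V) (k : ℕ) (c : V → ℕ) (w : ℕ → V)
    (hw : ∀ i < k, w i ∈ P ∪ Z ∧ c (w i) = i) :
    2 * k ≤ (P.filter (fun u => ∀ v ∈ P ∪ Z, c v = c u → v = u)).card + P.card + 2 * Z.card := by
  obtain ⟨U, hU⟩ : ∃ U, U = P.filter (fun u => ∀ v ∈ P ∪ Z, c v = c u → v = u) := ⟨_, rfl⟩
  rw [← hU]
  obtain ⟨I, hI⟩ : ∃ I, I = (range k) \ (Z.image c) := ⟨_, rfl⟩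
  have hIc : k ≤ I.card + Z.card := by
    have h1 : (range k).card ≤ I.card + (Z.image c).card := by
      rw [hI]
      have := Finset.le_card_sdiff (Z.image c) (range k)
      omega
    have h2 : (Z.image c).card ≤ Z.card := card_image_le
    rw [card_range] at h1
    omega
  obtain ⟨J, hJ⟩ : ∃ J, J = I \ (U.image c) := ⟨_, rfl⟩
  have hJc : I.card ≤ J.card + U.card := by
    have h1 := Finset.le_card_sdiff (U.image c) I
    have h2 : (U.image c).card ≤ U.card := card_image_le
    rw [hJ]
    omega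
  have hwP : ∀ i ∈ I, w i ∈ P := by
    intro i hi
    rw [hI, mem_sdiff, mem_range] at hi
    obtain ⟨h1, h2⟩ := hw i hi.1
    rcases mem_union.1 h1 with h | h
    · exact h
    · exact (hi.2 (mem_image.2 ⟨w i, h, h2⟩)).elim
  have hex : ∀ i ∈ J, ∃ v ∈ P, v ≠ w i ∧ c v = i := by
    intro i hi
    rw [hJ, mem_sdiff] at hi
    have hiI := hi.1
    rw [hI, mem_sdiff, mem_range] at hiI
    by_contra hcon
    push Not at hcon
    apply hi.2
    refine mem_image.2 ⟨w i, ?_, (hw i hiI.1).2⟩
    rw [hU, mem_filter]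
    refine ⟨hwP i hi.1, ?_⟩
    intro v hv hcv
    rw [(hw i hiI.1).2] at hcv
    rcases mem_union.1 hv with h | h
    · by_contra hne
      exact hcon v h hne hcv
    · exact (hiI.2 (mem_image.2 ⟨v, h, hcv⟩)).elim
  have : Nonempty V := ⟨w 0⟩
  choose! w' hw' using hex
  have hsub : (I.image w) ∪ (J.image w') ⊆ P := by
    intro v hv
    rcases mem_union.1 hv with h | h
    · obtain ⟨i, hi, rfl⟩ := mem_image.1 h
      exact hwP i hi
    · obtain ⟨i, hi, rfl⟩ := mem_image.1 h
      exact (hw' i hi).1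
  have hIr : ∀ i ∈ I, i < k := by
    intro i hi
    rw [hI, mem_sdiff, mem_range] at hi
    exact hi.1
  have hJI : ∀ i ∈ J, i ∈ I := by
    intro i hi
    rw [hJ, mem_sdiff] at hi
    exact hi.1
  have hdisj : Disjoint (I.image w) (J.image w') := by
    rw [disjoint_left]
    intro v h1 h2
    obtain ⟨i, hi, rfl⟩ := mem_image.1 h1
    obtain ⟨j, hj, hj'⟩ := mem_image.1 h2
    have e1 := (hw i (hIr i hi)).2
    have e2 := (hw' j hj).2.2
    rw [hj', e1] at e2
    subst e2
    exact (hw' i hj).2.1 hj'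
  have hc1 : (I.image w).card = I.card := by
    apply card_image_of_injOn
    intro i hi j hj hij
    have e1 := (hw i (hIr i (mem_coe.1 hi))).2
    have e2 := (hw j (hIr j (mem_coe.1 hj))).2
    rw [hij] at e1
    exact e1.symm.trans e2
  have hc2 : (J.image w').card = J.card := by
    apply card_image_of_injOn
    intro i hi j hj hij
    have e1 := (hw' i (mem_coe.1 hi)).2.2
    have e2 := (hw' j (mem_coe.1 hj)).2.2
    rw [hij] at e1
    exact e1.symm.trans e2
  have h3 := card_le_card hsub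
  rw [card_union_of_disjoint hdisj, hc1, hc2] at h3
  omega

/-- Match two injective maps by a permutation of the values. -/
lemma exists_perm {n : ℕ} (Z : Finset V) (c f : V → Fin n) (hc : Set.InjOn c Z)
    (hf : Set.InjOn f Z) : ∃ σ : Equiv.Perm (Fin n), ∀ z ∈ Z, σ (c z) = f z := by
  rcases isEmpty_or_nonempty V with hV | hV
  · exact ⟨1, fun z => (hV.false z).elim⟩
  have h1 : ∀ y ∈ c '' (Z : Set V), ∃ z ∈ Z, c z = y := by
    rintro y ⟨z, hz, rfl⟩
    exact ⟨z, mem_coe.1 hz, rfl⟩
  choose! d hd using h1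
  obtain ⟨g, hg⟩ := Set.MapsTo.exists_equiv_extend_of_card_eq (α := Fin n) (β := Fin n)
    (t := Finset.univ) (by simp) (s := c '' (Z : Set V)) (f := fun y => f (d y))
    (fun y _ => by simp) (by
      intro y hy y' hy' h
      dsimp only at h
      have e := hf (mem_coe.2 (hd y hy).1) (mem_coe.2 (hd y' hy').1) h
      rw [← (hd y hy).2, ← (hd y' hy').2, e])
  refine ⟨g.trans (Equiv.subtypeUnivEquiv (by simp)), ?_⟩
  intro z hz
  have e1 := hg (c z) ⟨z, mem_coe.2 hz, rfl⟩
  have e2 := hd (c z) ⟨z, mem_coe.2 hz, rfl⟩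
  have e3 := hc (mem_coe.2 e2.1) (mem_coe.2 hz) e2.2
  simp only [Equiv.trans_apply, Equiv.subtypeUnivEquiv_apply]
  rw [e1, e3]

/-- Extend an injective colouring. -/
lemma extend_inj {n : ℕ} (Z D : Finset V) (hZD : Disjoint Z D) (f : V → Fin n)
    (hf : Set.InjOn f Z) (hcard : Z.card + D.card ≤ n) :
    ∃ g : V → Fin n, (∀ z ∈ Z, g z = f z) ∧ Set.InjOn g (Z ∪ D : Finset V) := by
  induction D using Finset.induction_on with
  | empty => exact ⟨f, fun _ _ => rfl, by simpa using hf⟩
  | insert d D hd ih =>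
    rw [card_insert_of_notMem hd] at hcard
    obtain ⟨g, hg1, hg2⟩ := ih (hZD.mono_right (subset_insert d D)) (by omega)
    have hdZ : d ∉ Z := fun h => (disjoint_left.1 hZD) h (mem_insert_self d D)
    have hex : ∃ κ : Fin n, κ ∉ (Z ∪ D).image g := by
      by_contra hcon
      push Not at hcon
      have h1 : (Finset.univ : Finset (Fin n)) ⊆ (Z ∪ D).image g := fun κ _ => hcon κ
      have h2 := card_le_card h1
      have h3 : ((Z ∪ D).image g).card ≤ (Z ∪ D).card := card_image_le
      have h4 := card_union_le Z D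
      rw [card_univ, Fintype.card_fin] at h2
      omega
    obtain ⟨κ, hκ⟩ := hex
    refine ⟨Function.update g d κ, ?_, ?_⟩
    · intro z hz
      rw [Function.update_of_ne (by rintro rfl; exact hdZ hz)]
      exact hg1 z hz
    · intro x hx y hy hxy
      have hx' : x = d ∨ x ∈ Z ∪ D := by
        have := mem_coe.1 hx
        simp only [mem_union, mem_insert] at this ⊢
        tauto
      have hy' : y = d ∨ y ∈ Z ∪ D := by
        have := mem_coe.1 hy
        simp only [mem_union, mem_insert] at this ⊢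
        tauto
      by_cases hxd : x = d
      · by_cases hyd : y = d
        · rw [hxd, hyd]
        · rw [hxd, Function.update_self, Function.update_of_ne hyd] at hxy
          exact (hκ (hxy ▸ mem_image_of_mem g (hy'.resolve_left hyd))).elim
      · by_cases hyd : y = d
        · rw [hyd, Function.update_self, Function.update_of_ne hxd] at hxy
          exact (hκ (hxy ▸ mem_image_of_mem g (hx'.resolve_left hxd))).elim
        · rw [Function.update_of_ne hxd, Function.update_of_ne hyd] at hxy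
          exact hg2 (mem_coe.2 (hx'.resolve_left hxd)) (mem_coe.2 (hy'.resolve_left hyd)) hxy

/-- A small piece `P` with boundary `Z`: every injective colouring of `Z` extends to `P`. -/
lemma pcol (G : SimpleGraph V) (r s : ℕ) (hr : 0 < r) (P Z : Finset V)
    (hPZ : Disjoint P Z) (hcard : P.card + 2 * Z.card ≤ r + 2 * s)
    (hno : ¬ HasStarIn G r s Set.univ) (f : V → Fin (r + s - 1)) (hf : Set.InjOn f Z) :
    ∃ g : V → Fin (r + s - 1), (∀ z ∈ Z, g z = f z) ∧
      ∀ x ∈ P, ∀ y ∈ P ∪ Z, G.Adj x y → g x ≠ g y := by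
  obtain ⟨R, hR⟩ : ∃ R : V → V → Prop, R = fun v w => v ≠ w ∧ (G.Adj v w ∨ (v ∈ Z ∧ w ∈ Z)) :=
    ⟨_, rfl⟩
  have hsym : ∀ x y, R x y → R y x := by
    intro x y h
    rw [hR] at h ⊢
    exact ⟨h.1.symm, h.2.imp (fun h => h.symm) (fun h => ⟨h.2, h.1⟩)⟩
  by_cases hcol : ∃ c : V → ℕ, (∀ v ∈ P ∪ Z, c v < r + s - 1) ∧
      ∀ v ∈ P ∪ Z, ∀ w ∈ P ∪ Z, R v w → c v ≠ c w
  · obtain ⟨c, hc1, hc2⟩ := hcol
    by_cases hemp : P ∪ Z = ∅
    · rw [union_eq_empty] at hemp
      exact ⟨f, fun _ _ => rfl, fun x hx => by simp [hemp.1] at hx⟩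
    obtain ⟨v0, hv0⟩ := nonempty_iff_ne_empty.2 hemp
    have hpos : 0 < r + s - 1 := (Nat.zero_le _).trans_lt (hc1 v0 hv0)
    obtain ⟨c', hc'⟩ : ∃ c' : V → Fin (r + s - 1), ∀ v ∈ P ∪ Z, (c' v : ℕ) = c v := by
      refine ⟨fun v => if h : c v < r + s - 1 then ⟨c v, h⟩ else ⟨0, hpos⟩, ?_⟩
      intro v hv
      simp only
      rw [dif_pos (hc1 v hv)]
    have hc3 : ∀ v ∈ P ∪ Z, ∀ w ∈ P ∪ Z, R v w → c' v ≠ c' w := by
      intro v hv w hw h h'
      apply hc2 v hv w hw h
      rw [← hc' v hv, ← hc' w hw, h']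
    have hinj : Set.InjOn c' Z := by
      intro x hx y hy hxy
      by_contra hne
      refine hc3 x (mem_union_right _ (mem_coe.1 hx)) y (mem_union_right _ (mem_coe.1 hy)) ?_ hxy
      rw [hR]
      exact ⟨hne, Or.inr ⟨mem_coe.1 hx, mem_coe.1 hy⟩⟩
    obtain ⟨σ, hσ⟩ := exists_perm Z c' f hinj hf
    refine ⟨fun v => σ (c' v), hσ, ?_⟩
    intro x hx y hy hxy h
    refine hc3 x (mem_union_left _ hx) y hy ?_ (σ.injective h)
    rw [hR]
    exact ⟨hxy.ne, Or.inl hxy⟩
  · exfalso
    have hex : ∃ k, ∃ c : V → ℕ, (∀ v ∈ P ∪ Z, c v < k) ∧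
        ∀ v ∈ P ∪ Z, ∀ w ∈ P ∪ Z, R v w → c v ≠ c w := by
      obtain ⟨e⟩ : Nonempty ((P ∪ Z : Finset V) ≃ Fin (P ∪ Z).card) := by
        rw [← Fintype.card_eq]
        simp
      refine ⟨(P ∪ Z).card, fun v => if h : v ∈ P ∪ Z then (e ⟨v, h⟩ : ℕ) else 0, ?_, ?_⟩
      · intro v hv
        simp only
        rw [dif_pos hv]
        exact (e ⟨v, hv⟩).2
      · intro v hv w hw h h'
        simp only at h'
        rw [dif_pos hv, dif_pos hw] at h'
        have e1 := e.injective (Fin.ext h')
        rw [hR] at h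
        exact h.1 (congrArg Subtype.val e1)
    obtain ⟨k, hk⟩ : ∃ k, k = Nat.find hex := ⟨_, rfl⟩
    obtain ⟨c, hc1, hc2⟩ := Nat.find_spec hex
    rw [← hk] at hc1
    have hkt : r + s ≤ k := by
      by_contra h
      exact hcol ⟨c, fun v hv => (hc1 v hv).trans_le (by omega), hc2⟩
    have hmin := minCol (P ∪ Z) R hsym k c hc1 hc2 (by
      intro h
      have h1 := Nat.find_min' hex h
      omega)
    have hk0 : 0 < k := by omega
    obtain ⟨v0, -⟩ := hmin 0 hk0
    have : Nonempty V := ⟨v0⟩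
    choose! w hw1 hw2 hw3 using hmin
    have hcount := count_single P Z k c w (fun i hi => ⟨hw1 i hi, hw2 i hi⟩)
    obtain ⟨U, hU⟩ : ∃ U, U = P.filter (fun u => ∀ v ∈ P ∪ Z, c v = c u → v = u) := ⟨_, rfl⟩
    rw [← hU] at hcount
    have hUr : r ≤ U.card := by omega
    obtain ⟨A₀, hA₀, hA₀c⟩ := Finset.exists_subset_card_eq hUr
    have hUP : ∀ u ∈ A₀, u ∈ P ∧ ∀ v ∈ P ∪ Z, c v = c u → v = u := by
      intro u hu
      have := hA₀ hu
      rw [hU, mem_filter] at this
      exact this
    obtain ⟨I, hI⟩ : ∃ I, I = (range k) \ (A₀.image c) := ⟨_, rfl⟩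
    have hIc : s ≤ I.card := by
      have h1 := Finset.le_card_sdiff (A₀.image c) (range k)
      have h2 : (A₀.image c).card ≤ A₀.card := card_image_le
      rw [card_range] at h1
      rw [hI]
      omega
    obtain ⟨I', hI', hI'c⟩ := Finset.exists_subset_card_eq hIc
    have hIk : ∀ i ∈ I', i < k ∧ ∀ a ∈ A₀, c a ≠ i := by
      intro i hi
      have := hI' hi
      rw [hI, mem_sdiff, mem_range, mem_image] at this
      exact ⟨this.1, fun a ha h => this.2 ⟨a, ha, h⟩⟩
    have hadj : ∀ a ∈ A₀, ∀ i < k, a ≠ w i → G.Adj a (w i) := by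
      intro a ha i hi hne
      have h1 := hw3 i hi a (mem_union_left _ (hUP a ha).1) (hUP a ha).2 hne
      rw [hR] at h1
      rcases h1.2 with h | h
      · exact h.symm
      · exact ((disjoint_left.1 hPZ) (hUP a ha).1 h.2).elim
    apply hno
    refine star_of_clique A₀ (I'.image w) hA₀c ?_ ?_ ?_
    · rw [card_image_of_injOn, hI'c]
      intro i hi j hj hij
      have e1 := hw2 i (hIk i (mem_coe.1 hi)).1
      have e2 := hw2 j (hIk j (mem_coe.1 hj)).1
      rw [hij] at e1
      exact e1.symm.trans e2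
    · intro a ha b hb hab
      have h1 := hc1 b (mem_union_left _ (hUP b hb).1)
      have h2 : w (c b) = b := (hUP b hb).2 _ (hw1 _ h1) (hw2 _ h1)
      have h3 := hadj a ha (c b) h1 (by rw [h2]; exact hab)
      rwa [h2] at h3
    · intro a ha b hb
      obtain ⟨i, hi, rfl⟩ := mem_image.1 hb
      obtain ⟨h1, h2⟩ := hIk i hi
      have hne : a ≠ w i := by
        intro h
        apply h2 a ha
        rw [h, hw2 i h1]
      exact ⟨hne.symm, hadj a ha i h1 hne⟩

/-- A connected set that meets `S` and its complement has an edge leaving `S`. -/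
lemma exists_boundary {G : SimpleGraph V} {K : Set V} (hK : (G.induce K).Connected) (S : Set V)
    {x y : V} (hx : x ∈ K) (hxS : x ∈ S) (hy : y ∈ K) (hyS : y ∉ S) :
    ∃ u ∈ K, ∃ v ∈ K, u ∈ S ∧ v ∉ S ∧ G.Adj u v := by
  obtain ⟨p⟩ := hK.preconnected ⟨x, hx⟩ ⟨y, hy⟩
  obtain ⟨d, -, hd1, hd2⟩ := p.exists_boundary_dart (Subtype.val ⁻¹' S) hxS hyS
  exact ⟨d.fst, d.fst.2, d.snd, d.snd.2, hd1, hd2, d.adj⟩

/-- Add an adjacent vertex to a connected set. -/
lemma connected_insert {G : SimpleGraph V} {K : Set V} (hK : (G.induce K).Connected) {x y : V}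
    (hx : x ∈ K) (hxy : G.Adj x y) : (G.induce (insert y K)).Connected := by
  have h1 := SimpleGraph.induce_union_connected hK.preconnected
    (SimpleGraph.induce_pair_connected_of_adj hxy).preconnected ⟨x, hx, by simp⟩
  have h2 : K ∪ {x, y} = insert y K := by
    ext v
    simp only [Set.mem_union, Set.mem_insert_iff, Set.mem_singleton_iff]
    constructor
    · rintro (h | rfl | rfl)
      · exact Or.inr h
      · exact Or.inr hx
      · exact Or.inl rfl
    · rintro (rfl | h)
      · exact Or.inr (Or.inr rfl)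
      · exact Or.inl h
  rwa [h2] at h1

/-- Components. -/
lemma exists_component (G : SimpleGraph V) (X : Finset V) {x : V} (hx : x ∈ X) :
    ∃ C ⊆ X, x ∈ C ∧ (G.induce (C : Set V)).Connected ∧
      ∀ u ∈ C, ∀ v ∈ X, v ∉ C → ¬ G.Adj u v := by
  obtain ⟨C, hC, hmax⟩ := Finset.exists_max_image
    (X.powerset.filter (fun C : Finset V => x ∈ C ∧ (G.induce (C : Set V)).Connected)) card
    ⟨{x}, by
      rw [mem_filter, mem_powerset, singleton_subset_iff]
      refine ⟨hx, mem_singleton_self x, ?_⟩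
      rw [coe_singleton]
      exact connected_singleton G x⟩
  rw [mem_filter, mem_powerset] at hC
  obtain ⟨hCX, hxC, hCc⟩ := hC
  refine ⟨C, hCX, hxC, hCc, ?_⟩
  intro u hu v hv hvC huv
  have h1 := hmax (insert v C) (by
    rw [mem_filter, mem_powerset]
    refine ⟨insert_subset hv hCX, mem_insert_of_mem hxC, ?_⟩
    rw [coe_insert]
    exact connected_insert hCc (mem_coe.2 hu) huv)
  rw [card_insert_of_notMem hvC] at h1
  omega

/-- Small connected dominating sets: every connected induced subgraph on a vertex set `X` in which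
all degrees are at least `d` has a connected dominating set of at most `c` vertices. -/
def DomBound (G : SimpleGraph V) (c d : ℕ) : Prop :=
  ∀ X : Set V, (G.induce X).Connected → (∀ x ∈ X, d ≤ (G.neighborSet x ∩ X).ncard) →
    ∃ D ⊆ X, (G.induce D).Connected ∧ D.ncard ≤ c ∧ ∀ x ∈ X, x ∉ D → ∃ y ∈ D, G.Adj y x

lemma main_rec [Fintype V] (G : SimpleGraph V) (r s c : ℕ) (hr : 0 < r) (hs : 0 < s)
    (hc : 2 * (r * c) ≤ r + s + 1) (hdom : DomBound G c (r + s - 1 - (r - 1) * c))
    (hno : ¬ HasStarIn G r s Set.univ) :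
    ∀ j ≤ r, ∀ n : ℕ, ∀ X : Finset V, X.card = n → ∀ Z : Finset V, Disjoint X Z →
      Z.card ≤ (r - j) * c → ¬ HasStarIn G j s (X : Set V) →
      ∀ f : V → Fin (r + s - 1), Set.InjOn f Z →
      ∃ g : V → Fin (r + s - 1), (∀ z ∈ Z, g z = f z) ∧
        ∀ x ∈ X, ∀ y ∈ X ∪ Z, G.Adj x y → g x ≠ g y := by
  intro j
  induction j with
  | zero =>
    intro _ n X _ Z hXZ hZ hX f hf
    have h1 := card_lt_of_not_star hX
    rw [Nat.sub_zero] at hZ
    exact pcol G r s hr X Z hXZ (by omega) hno f hf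
  | succ j ihj =>
    intro hjr n
    induction n using Nat.strong_induction_on with
    | _ n ihn =>
    intro X hXn Z hXZ hZ hX f hf
    have hjc : (r - (j + 1)) * c + c = (r - j) * c := by
      have e1 : r - j = (r - (j + 1)) + 1 := by omega
      rw [e1, Nat.add_one_mul]
    have hjc2 : (r - j) * c ≤ r * c := Nat.mul_le_mul_right _ (Nat.sub_le _ _)
    have hjc3 : (r - (j + 1)) * c ≤ (r - 1) * c := Nat.mul_le_mul_right _ (by omega)
    by_cases hdeg : ∃ x ∈ X, ((X ∪ Z).filter (fun y => G.Adj x y)).card < r + s - 1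
    · -- a vertex of small degree
      obtain ⟨x, hx, hxd⟩ := hdeg
      obtain ⟨g, hg1, hg2⟩ := ihn (X.erase x).card
        (by rw [← hXn]; exact card_erase_lt_of_mem hx) (X.erase x) rfl Z
        (hXZ.mono_left (erase_subset _ _)) hZ
        (fun h => hX (h.mono (by exact_mod_cast erase_subset x X))) f hf
      have hex : ∃ κ : Fin (r + s - 1), κ ∉ ((X ∪ Z).filter (fun y => G.Adj x y)).image g := by
        by_contra hcon
        push Not at hcon
        have h1 : (Finset.univ : Finset (Fin (r + s - 1))) ⊆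
            ((X ∪ Z).filter (fun y => G.Adj x y)).image g := fun κ _ => hcon κ
        have h2 := card_le_card h1
        have h3 : (((X ∪ Z).filter (fun y => G.Adj x y)).image g).card ≤ _ := card_image_le
        rw [card_univ, Fintype.card_fin] at h2
        omega
      obtain ⟨κ, hκ⟩ := hex
      have hκ' : ∀ y ∈ X ∪ Z, G.Adj x y → g y ≠ κ := by
        intro y hy hxy h
        exact hκ (h ▸ mem_image_of_mem g (mem_filter.2 ⟨hy, hxy⟩))
      refine ⟨Function.update g x κ, ?_, ?_⟩
      · intro z hz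
        rw [Function.update_of_ne (by rintro rfl; exact (disjoint_left.1 hXZ) hx hz)]
        exact hg1 z hz
      · intro x' hx' y hy hxy
        by_cases h1 : x' = x
        · subst h1
          rw [Function.update_self, Function.update_of_ne hxy.ne']
          exact (hκ' y hy hxy).symm
        · by_cases h2 : y = x
          · subst h2
            rw [Function.update_self, Function.update_of_ne h1]
            exact hκ' x' (mem_union_left _ hx') hxy.symm
          · rw [Function.update_of_ne h1, Function.update_of_ne h2]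
            apply hg2 x' (mem_erase.2 ⟨h1, hx'⟩) y _ hxy
            rcases mem_union.1 hy with h | h
            · exact mem_union_left _ (mem_erase.2 ⟨h2, h⟩)
            · exact mem_union_right _ h
    push Not at hdeg
    rcases X.eq_empty_or_nonempty with hXe | ⟨x0, hx0⟩
    · exact ⟨f, fun _ _ => rfl, fun x hx => by simp [hXe] at hx⟩
    obtain ⟨C, hCX, hx0C, hCc, hCout⟩ := exists_component G X hx0
    -- the rest
    obtain ⟨g', hg'1, hg'2⟩ := ihn (X \ C).card (by
        rw [← hXn]
        exact card_lt_card (sdiff_ssubset hCX ⟨x0, hx0C⟩)) (X \ C) rfl Z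
        (hXZ.mono_left sdiff_subset) hZ
        (fun h => hX (h.mono (by exact_mod_cast sdiff_subset))) f hf
    -- the component
    have hCdeg : ∀ x ∈ (C : Set V), r + s - 1 - (r - 1) * c ≤
        (G.neighborSet x ∩ (C : Set V)).ncard := by
      intro x hx
      have hxC := mem_coe.1 hx
      have h1 := hdeg x (hCX hxC)
      have h2 : (X ∪ Z).filter (fun y => G.Adj x y) ⊆ (C.filter (fun y => G.Adj x y)) ∪ Z := by
        intro y hy
        rw [mem_filter, mem_union] at hy
        rw [mem_union, mem_filter]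
        rcases hy.1 with h | h
        · left
          refine ⟨?_, hy.2⟩
          by_contra hyC
          exact hCout x hxC y h hyC hy.2
        · exact Or.inr h
      have h3 := (card_le_card h2).trans (card_union_le _ _)
      have h4 : (G.neighborSet x ∩ (C : Set V)).ncard = (C.filter (fun y => G.Adj x y)).card := by
        rw [← Set.ncard_coe_finset]
        congr 1
        ext y
        simp only [Set.mem_inter_iff, SimpleGraph.mem_neighborSet, mem_coe, coe_filter,
          Set.mem_ofPred_eq]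
        tauto
      rw [h4]
      omega
    obtain ⟨D₀, hD₀C, hD₀c, hD₀n, hD₀d⟩ := hdom (C : Set V) hCc hCdeg
    obtain ⟨D, hD⟩ : ∃ D : Finset V, (D : Set V) = D₀ := ⟨D₀.toFinset, by simp⟩
    subst hD
    rw [Set.ncard_coe_finset] at hD₀n
    have hDC : D ⊆ C := by exact_mod_cast hD₀C
    have hZD : Disjoint Z D := (hXZ.mono_left (hDC.trans hCX)).symm
    obtain ⟨f1, hf1, hf1i⟩ := extend_inj Z D hZD f hf (by omega)
    obtain ⟨g1, hg11, hg12⟩ := ihj (by omega) _ (C \ D) rfl (Z ∪ D) (by
        rw [disjoint_union_right]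
        exact ⟨hXZ.mono_left (sdiff_subset.trans hCX), sdiff_disjoint⟩)
        ((card_union_le _ _).trans (by omega)) (by
        intro h
        apply hX
        refine h.succ hD₀c (by exact_mod_cast hDC.trans hCX)
          (by exact_mod_cast sdiff_subset.trans hCX) ?_ ?_
        · rw [Set.disjoint_left]
          intro v hv hv'
          exact (mem_sdiff.1 (mem_coe.1 hv')).2 (mem_coe.1 hv)
        · intro y hy
          have := mem_sdiff.1 (mem_coe.1 hy)
          exact hD₀d y (mem_coe.2 this.1) (fun h => this.2 (mem_coe.1 h))) f1 hf1i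
    have hg1Z : ∀ z ∈ Z, g1 z = f z := fun z hz =>
      (hg11 z (mem_union_left _ hz)).trans (hf1 z hz)
    have hg1C : ∀ x ∈ C, ∀ y ∈ C ∪ Z, G.Adj x y → g1 x ≠ g1 y := by
      intro x hx y hy hxy
      by_cases hxD : x ∈ D
      · by_cases hy' : y ∈ Z ∪ D
        · rw [hg11 x (mem_union_right _ hxD), hg11 y hy']
          intro h
          exact hxy.ne (hf1i (mem_coe.2 (mem_union_right _ hxD)) (mem_coe.2 hy') h)
        · have hyC : y ∈ C \ D := by
            rw [mem_union] at hy hy'
            rw [mem_sdiff]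
            tauto
          exact (hg12 y hyC x (mem_union_right _ (mem_union_right _ hxD)) hxy.symm).symm
      · apply hg12 x (mem_sdiff.2 ⟨hx, hxD⟩) y _ hxy
        simp only [mem_union, mem_sdiff] at hy ⊢
        tauto
    have hCZ : ∀ z ∈ Z, z ∉ C := fun z hz h => (disjoint_left.1 hXZ) (hCX h) hz
    refine ⟨fun v => if v ∈ C then g1 v else g' v, ?_, ?_⟩
    · intro z hz
      simp only
      rw [if_neg (hCZ z hz)]
      exact hg'1 z hz
    · intro x hx y hy hxy
      simp only
      by_cases hxC : x ∈ C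
      · rw [if_pos hxC]
        by_cases hyC : y ∈ C
        · rw [if_pos hyC]
          exact hg1C x hxC y (mem_union_left _ hyC) hxy
        · rw [if_neg hyC]
          rcases mem_union.1 hy with h | h
          · exact (hCout x hxC y h hyC hxy).elim
          · rw [hg'1 y h, ← hg1Z y h]
            exact hg1C x hxC y (mem_union_right _ h) hxy
      · rw [if_neg hxC]
        by_cases hyC : y ∈ C
        · exact (hCout y hyC x hx hxC hxy.symm).elim
        · rw [if_neg hyC]
          apply hg'2 x (mem_sdiff.2 ⟨hx, hxC⟩) y _ hxy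
          rcases mem_union.1 hy with h | h
          · exact mem_union_left _ (mem_sdiff.2 ⟨h, hyC⟩)
          · exact mem_union_right _ h

/-- The main theorem in terms of connected dominating sets. -/
theorem core [Fintype V] (G : SimpleGraph V) (r s c : ℕ) (hr : 0 < r) (hs : 0 < s)
    (hc : 2 * (r * c) ≤ r + s + 1) (hdom : DomBound G c (r + s - 1 - (r - 1) * c))
    (hno : ¬ HasStarIn G r s Set.univ) : G.Colorable (r + s - 1) := by
  obtain ⟨g, -, hg⟩ := main_rec G r s c hr hs hc hdom hno r le_rfl _ Finset.univ rfl ∅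
    (disjoint_empty_right _) (by simp) (by simpa using hno) (fun _ => ⟨0, by omega⟩) (by simp)
  exact ⟨SimpleGraph.Coloring.mk g fun {x y} h => hg x (mem_univ _) y (by simp) h⟩

end Pool.Agent.Lib.MP_5babb6_co
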