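import Mathlib
import Pool.Agent.Lib.MP_5babb6_co.Core

set_option autoImplicit false

/-!
Small connected dominating sets: in graphs of bounded independence number, and in graphs with few
vertices and large minimum degree.
-/

namespace Pool.Agent.Lib.MP_5babb6_co

open Finset Classical

variable {V : Type}

/-- A connected graph has a connected dominating set `D` with at most `2 α - 1` vertices. -/
lemma domBound_of_indep [Fintype V] (G : SimpleGraph V) (a d : ℕ)
    (ha : ∀ I : Finset V, G.IsIndepSet (I : Set V) → I.card ≤ a) : DomBound G (2 * a - 1) d := by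
  intro X hX _
  obtain ⟨C, hC⟩ : ∃ C : Finset V, (C : Set V) = X := ⟨X.toFinset, by simp⟩
  subst hC
  obtain ⟨⟨x0, hx0⟩⟩ := hX.nonempty
  have hx0' := mem_coe.1 hx0
  obtain ⟨D, hD, hmax⟩ := Finset.exists_max_image
    (C.powerset.filter (fun D : Finset V => (G.induce (D : Set V)).Connected ∧
      ∃ I ⊆ D, G.IsIndepSet (I : Set V) ∧ D.card + 1 ≤ 2 * I.card)) card
    ⟨{x0}, by
      rw [mem_filter, mem_powerset, singleton_subset_iff]
      refine ⟨hx0', ?_, {x0}, Subset.rfl, ?_, by simp⟩
      · rw [coe_singleton]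
        exact connected_singleton G x0
      · rw [coe_singleton]
        simp [SimpleGraph.IsIndepSet]⟩
  rw [mem_filter, mem_powerset] at hD
  obtain ⟨hDC, hDc, I, hID, hI, hcard⟩ := hD
  have hIa := ha I hI
  refine ⟨D, by exact_mod_cast hDC, hDc, ?_, ?_⟩
  · rw [Set.ncard_coe_finset]
    omega
  · intro v hv hvD
    by_contra hcon
    push Not at hcon
    obtain ⟨⟨d0, hd0⟩⟩ := hDc.nonempty
    have hd0' := mem_coe.1 hd0
    obtain ⟨S, hS⟩ : ∃ S : Set V, S = {w | w ∈ D ∨ ∃ y ∈ D, G.Adj y w} := ⟨_, rfl⟩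
    have hvS : v ∉ S := by
      rw [hS]
      rintro (h | ⟨y, hy, hyv⟩)
      · exact hvD (mem_coe.2 h)
      · exact hcon y (mem_coe.2 hy) hyv
    obtain ⟨u, hu, w, hw, huS, hwS, huw⟩ := exists_boundary hX S
      (mem_coe.2 (hDC hd0')) (by rw [hS]; exact Or.inl hd0') hv hvS
    have hwS' : w ∉ D ∧ ∀ y ∈ D, ¬ G.Adj y w := by
      rw [hS] at hwS
      exact ⟨fun h => hwS (Or.inl h), fun y hy h => hwS (Or.inr ⟨y, hy, h⟩)⟩
    have huD : u ∉ D := fun h => hwS'.2 u h huw
    rw [hS] at huS
    obtain ⟨y, hy, hyu⟩ := huS.resolve_left huD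
    have hwI : w ∉ I := fun h => hwS'.1 (hID h)
    have hwu : w ∉ insert u D := by
      rw [mem_insert]
      rintro (h | h)
      · exact huw.ne h.symm
      · exact hwS'.1 h
    have h1 := hmax (insert w (insert u D)) (by
      rw [mem_filter, mem_powerset]
      refine ⟨insert_subset (mem_coe.1 hw) (insert_subset (mem_coe.1 hu) hDC), ?_,
        insert w I, ?_, ?_, ?_⟩
      · rw [coe_insert, coe_insert]
        exact connected_insert (connected_insert hDc (mem_coe.2 hy) hyu)
          (Set.mem_insert u _) huw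
      · exact insert_subset_insert _ (hID.trans (subset_insert _ _))
      · rw [coe_insert]
        intro p hp q hq hpq
        rcases hp with hp | hp
        · rcases hq with hq | hq
          · exact (hpq (hp.trans hq.symm)).elim
          · rw [hp]
            exact fun h => hwS'.2 q (hID (mem_coe.1 hq)) h.symm
        · rcases hq with hq | hq
          · rw [hq]
            exact fun h => hwS'.2 p (hID (mem_coe.1 hp)) h
          · exact hI hp hq hpq
      · rw [card_insert_of_notMem hwI, card_insert_of_notMem hwu, card_insert_of_notMem huD]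
        omega)
    rw [card_insert_of_notMem hwu, card_insert_of_notMem huD] at h1
    omega

/-- Connect a dominating set. -/
lemma connect_dom (G : SimpleGraph V) (C S : Finset V) (hC : (G.induce (C : Set V)).Connected)
    (hSC : S ⊆ C) (hS : ∀ x ∈ C, ∃ y ∈ S, y = x ∨ G.Adj y x) :
    ∃ D ⊆ C, (G.induce (D : Set V)).Connected ∧ D.card + 2 ≤ 3 * S.card ∧
      ∀ x ∈ C, x ∉ D → ∃ y ∈ D, G.Adj y x := by
  obtain ⟨⟨x0, hx0⟩⟩ := hC.nonempty
  obtain ⟨s0, hs0, -⟩ := hS x0 (mem_coe.1 hx0)
  obtain ⟨D, hD, hmax⟩ := Finset.exists_max_image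
    (C.powerset.filter (fun D : Finset V => (G.induce (D : Set V)).Connected ∧
      D.card + 2 ≤ 3 * (D ∩ S).card)) (fun D => (D ∩ S).card)
    ⟨{s0}, by
      rw [mem_filter, mem_powerset, singleton_subset_iff]
      refine ⟨hSC hs0, ?_, ?_⟩
      · rw [coe_singleton]
        exact connected_singleton G s0
      · rw [singleton_inter_of_mem hs0]
        simp⟩
  rw [mem_filter, mem_powerset] at hD
  obtain ⟨hDC, hDc, hcard⟩ := hD
  refine ⟨D, hDC, hDc, ?_, ?_⟩
  · have := card_le_card (inter_subset_right : D ∩ S ⊆ S)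
    omega
  · intro v hv hvD
    by_contra hcon
    push Not at hcon
    obtain ⟨⟨d0, hd0⟩⟩ := hDc.nonempty
    have hd0' := mem_coe.1 hd0
    obtain ⟨T, hT⟩ : ∃ T : Set V, T = {w | w ∈ D ∨ ∃ y ∈ D, G.Adj y w} := ⟨_, rfl⟩
    have hvT : v ∉ T := by
      rw [hT]
      rintro (h | ⟨y, hy, hyv⟩)
      · exact hvD h
      · exact hcon y hy hyv
    obtain ⟨u, hu, w, hw, huT, hwT, huw⟩ := exists_boundary hC T
      (mem_coe.2 (hDC hd0')) (by rw [hT]; exact Or.inl hd0') (mem_coe.2 hv) hvT
    have hwT' : w ∉ D ∧ ∀ y ∈ D, ¬ G.Adj y w := by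
      rw [hT] at hwT
      exact ⟨fun h => hwT (Or.inl h), fun y hy h => hwT (Or.inr ⟨y, hy, h⟩)⟩
    have huD : u ∉ D := fun h => hwT'.2 u h huw
    rw [hT] at huT
    obtain ⟨y, hy, hyu⟩ := huT.resolve_left huD
    obtain ⟨z, hz, hzw⟩ := hS w (mem_coe.1 hw)
    have hzD : z ∉ D := by
      intro h
      rcases hzw with h1 | h1
      · exact hwT'.1 (h1 ▸ h)
      · exact hwT'.2 z h h1
    have hconn : (G.induce ((insert z (insert w (insert u D)) : Finset V) : Set V)).Connected := by
      rw [coe_insert, coe_insert, coe_insert]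
      have h1 := connected_insert (connected_insert hDc (mem_coe.2 hy) hyu)
          (Set.mem_insert u _) huw
      rcases hzw with h2 | h2
      · subst h2
        rwa [Set.insert_eq_of_mem (Set.mem_insert _ _)]
      · exact connected_insert h1 (Set.mem_insert w _) h2.symm
    have hcard3 : (insert z (insert w (insert u D))).card ≤ D.card + 3 := by
      have h1 := card_insert_le z (insert w (insert u D))
      have h2 := card_insert_le w (insert u D)
      have h3 := card_insert_le u D
      omega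
    have hint : (D ∩ S).card + 1 ≤ (insert z (insert w (insert u D)) ∩ S).card := by
      have h1 : insert z (D ∩ S) ⊆ insert z (insert w (insert u D)) ∩ S := by
        intro p hp
        rw [mem_inter]
        rcases mem_insert.1 hp with h | h
        · rw [h]
          exact ⟨mem_insert_self _ _, hz⟩
        · rw [mem_inter] at h
          exact ⟨mem_insert_of_mem (mem_insert_of_mem (mem_insert_of_mem h.1)), h.2⟩
      have h2 := card_le_card h1
      rwa [card_insert_of_notMem (fun h => hzD (mem_inter.1 h).1)] at h2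
    have h1 := hmax (insert z (insert w (insert u D))) (by
      rw [mem_filter, mem_powerset]
      exact ⟨insert_subset (hSC hz) (insert_subset (mem_coe.1 hw)
        (insert_subset (mem_coe.1 hu) hDC)), hconn, by omega⟩)
    omega

/-- Greedy domination. -/
lemma greedy (G : SimpleGraph V) (C : Finset V) (m : ℕ)
    (hm : ∀ x ∈ C, m ≤ (C.filter (fun y => y = x ∨ G.Adj x y)).card) (k : ℕ) :
    ∃ S ⊆ C, S.card ≤ k ∧ (C.filter (fun x => ∀ y ∈ S, ¬ (y = x ∨ G.Adj y x))).card * C.card ^ k ≤
      C.card * (C.card - m) ^ k := by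
  induction k with
  | zero =>
    refine ⟨∅, empty_subset _, by simp, ?_⟩
    simp
  | succ k ih =>
    obtain ⟨S, hSC, hSk, hS⟩ := ih
    obtain ⟨Y, hY⟩ : ∃ Y, Y = C.filter (fun x => ∀ y ∈ S, ¬ (y = x ∨ G.Adj y x)) := ⟨_, rfl⟩
    rw [← hY] at hS
    rcases C.eq_empty_or_nonempty with hCe | hCne
    · refine ⟨S, hSC, by omega, ?_⟩
      rw [hCe]
      simp
    have hYC : Y ⊆ C := by
      rw [hY]
      exact filter_subset _ _
    have hex : ∃ v ∈ C, m * Y.card ≤ C.card * (Y.filter (fun y => y = v ∨ G.Adj v y)).card := by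
      by_contra hcon
      push Not at hcon
      have h1 : ∑ v ∈ C, C.card * (Y.filter (fun y => y = v ∨ G.Adj v y)).card <
          ∑ v ∈ C, m * Y.card := Finset.sum_lt_sum_of_nonempty hCne hcon
      rw [← Finset.mul_sum, Finset.sum_const, smul_eq_mul] at h1
      have h2 : ∑ v ∈ C, (Y.filter (fun y => y = v ∨ G.Adj v y)).card =
          ∑ y ∈ Y, (C.filter (fun v => v = y ∨ G.Adj y v)).card := by
        simp only [card_filter]
        rw [Finset.sum_comm]
        refine sum_congr rfl fun y _ => sum_congr rfl fun v _ => ?_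
        simp only [eq_comm (a := y) (b := v), G.adj_comm v y]
      have h3 : ∑ y ∈ Y, m ≤ ∑ y ∈ Y, (C.filter (fun v => v = y ∨ G.Adj y v)).card :=
        sum_le_sum fun y hy => hm y (hYC hy)
      rw [sum_const, smul_eq_mul] at h3
      rw [h2] at h1
      have h4 := lt_of_mul_lt_mul_left h1 (Nat.zero_le _)
      rw [mul_comm] at h3
      omega
    obtain ⟨v, hv, hvY⟩ := hex
    refine ⟨insert v S, insert_subset hv hSC, (card_insert_le _ _).trans (by omega), ?_⟩
    have hsub : C.filter (fun x => ∀ y ∈ insert v S, ¬ (y = x ∨ G.Adj y x)) ⊆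
        Y \ (Y.filter (fun y => y = v ∨ G.Adj v y)) := by
      intro x hx
      rw [mem_filter] at hx
      have hxY : x ∈ Y := by
        rw [hY, mem_filter]
        exact ⟨hx.1, fun y hy => hx.2 y (mem_insert_of_mem hy)⟩
      rw [mem_sdiff, mem_filter]
      refine ⟨hxY, fun h => hx.2 v (mem_insert_self _ _) ?_⟩
      exact h.2.imp (fun h => h.symm) id
    have h1 := card_le_card hsub
    rw [card_sdiff_of_subset (filter_subset _ _)] at h1
    have h2 : C.card * (Y.card - (Y.filter (fun y => y = v ∨ G.Adj v y)).card) ≤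
        (C.card - m) * Y.card := by
      rw [Nat.mul_sub, Nat.sub_mul]
      omega
    calc (C.filter (fun x => ∀ y ∈ insert v S, ¬ (y = x ∨ G.Adj y x))).card * C.card ^ (k + 1)
        = (C.card * (C.filter (fun x => ∀ y ∈ insert v S, ¬ (y = x ∨ G.Adj y x))).card) *
            C.card ^ k := by ring
      _ ≤ ((C.card - m) * Y.card) * C.card ^ k :=
          Nat.mul_le_mul_right _ ((Nat.mul_le_mul_left _ h1).trans h2)
      _ = (C.card - m) * (Y.card * C.card ^ k) := by ring
      _ ≤ (C.card - m) * (C.card * (C.card - m) ^ k) := Nat.mul_le_mul_left _ hS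
      _ = C.card * (C.card - m) ^ (k + 1) := by ring

/-- Few vertices and large minimum degree. -/
lemma domBound_of_card [Fintype V] (G : SimpleGraph V) (d k : ℕ)
    (hk : (Fintype.card V : ℝ) * Real.log (Fintype.card V) < k * (d + 1)) :
    DomBound G (3 * k - 2) d := by
  intro X hX hdeg
  obtain ⟨C, hC⟩ : ∃ C : Finset V, (C : Set V) = X := ⟨X.toFinset, by simp⟩
  subst hC
  have hm : ∀ x ∈ C, d + 1 ≤ (C.filter (fun y => y = x ∨ G.Adj x y)).card := by
    intro x hx
    have h1 := hdeg x (mem_coe.2 hx)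
    have h2 : (G.neighborSet x ∩ (C : Set V)).ncard = (C.filter (fun y => G.Adj x y)).card := by
      rw [← Set.ncard_coe_finset]
      congr 1
      ext y
      simp only [Set.mem_inter_iff, SimpleGraph.mem_neighborSet, mem_coe, coe_filter,
        Set.mem_ofPred_eq]
      tauto
    rw [h2] at h1
    have h3 : insert x (C.filter (fun y => G.Adj x y)) ⊆
        C.filter (fun y => y = x ∨ G.Adj x y) := by
      intro y hy
      rw [mem_filter]
      rcases mem_insert.1 hy with h | h
      · rw [h]
        exact ⟨hx, Or.inl rfl⟩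
      · rw [mem_filter] at h
        exact ⟨h.1, Or.inr h.2⟩
    have h4 := card_le_card h3
    rw [card_insert_of_notMem (by rw [mem_filter]; exact fun h => h.2.ne rfl)] at h4
    omega
  obtain ⟨⟨x0, hx0⟩⟩ := hX.nonempty
  have hx0' := mem_coe.1 hx0
  have hdC : d + 1 ≤ C.card := (hm x0 hx0').trans (card_le_card (filter_subset _ _))
  have hCV : C.card ≤ Fintype.card V := card_le_univ C
  obtain ⟨S, hSC, hSk, hS⟩ := greedy G C (d + 1) hm k
  have hCpos : (0 : ℝ) < C.card := by
    have : 0 < C.card := by omega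
    exact_mod_cast this
  have hlogC : (C.card : ℝ) * Real.log C.card < k * (d + 1) := by
    refine lt_of_le_of_lt ?_ hk
    have h1 : (C.card : ℝ) ≤ Fintype.card V := by exact_mod_cast hCV
    have h2 : (1 : ℝ) ≤ C.card := by exact_mod_cast (by omega : 1 ≤ C.card)
    exact mul_le_mul h1 (Real.log_le_log hCpos h1) (Real.log_nonneg h2) (by linarith)
  have hYe : C.filter (fun x => ∀ y ∈ S, ¬ (y = x ∨ G.Adj y x)) = ∅ := by
    by_contra hne
    have hpos : 1 ≤ (C.filter (fun x => ∀ y ∈ S, ¬ (y = x ∨ G.Adj y x))).card :=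
      Finset.card_pos.2 (nonempty_iff_ne_empty.2 hne)
    have h1 : C.card ^ k ≤ C.card * (C.card - (d + 1)) ^ k := by
      calc C.card ^ k = 1 * C.card ^ k := (one_mul _).symm
        _ ≤ _ := Nat.mul_le_mul_right _ hpos
        _ ≤ _ := by convert hS
    have h2 : (C.card : ℝ) ^ k ≤ C.card * ((C.card : ℝ) - (d + 1)) ^ k := by
      have := (Nat.cast_le (α := ℝ)).2 h1
      rw [Nat.cast_mul, Nat.cast_pow, Nat.cast_pow, Nat.cast_sub hdC] at this
      push_cast at this
      exact this
    have h3 : (C.card : ℝ) - (d + 1) ≤ C.card * Real.exp (-((d + 1) / C.card)) := by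
      have h4 := Real.add_one_le_exp (-(((d : ℝ) + 1) / C.card))
      have h5 := mul_le_mul_of_nonneg_left h4 hCpos.le
      have h6 : (C.card : ℝ) * (-(((d : ℝ) + 1) / C.card) + 1) = C.card - (d + 1) := by
        field_simp
        ring
      rwa [h6] at h5
    have h4 : ((C.card : ℝ) - (d + 1)) ^ k ≤
        (C.card : ℝ) ^ k * Real.exp (-(k * ((d + 1) / C.card))) := by
      have h5 : (0 : ℝ) ≤ (C.card : ℝ) - (d + 1) := by
        have : ((d + 1 : ℕ) : ℝ) ≤ C.card := by exact_mod_cast hdC
        push_cast at this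
        linarith
      have h6 := pow_le_pow_left₀ h5 h3 k
      rw [mul_pow, ← Real.exp_nat_mul] at h6
      have h7 : (k : ℝ) * -((d + 1) / C.card) = -(k * ((d + 1) / C.card)) := by ring
      rwa [h7] at h6
    have h5 : Real.exp (-(k * ((d + 1) / C.card))) < (C.card : ℝ)⁻¹ := by
      rw [← Real.exp_log (inv_pos.2 hCpos), Real.exp_lt_exp, Real.log_inv, neg_lt_neg_iff]
      rw [← mul_div_assoc, lt_div_iff₀ hCpos, mul_comm]
      exact hlogC
    have h6 : (0 : ℝ) < (C.card : ℝ) ^ k := pow_pos hCpos k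
    have h7 : (C.card : ℝ) * ((C.card : ℝ) - (d + 1)) ^ k < (C.card : ℝ) ^ k := by
      calc (C.card : ℝ) * ((C.card : ℝ) - (d + 1)) ^ k
          ≤ C.card * ((C.card : ℝ) ^ k * Real.exp (-(k * ((d + 1) / C.card)))) :=
            mul_le_mul_of_nonneg_left h4 hCpos.le
        _ < C.card * ((C.card : ℝ) ^ k * (C.card : ℝ)⁻¹) :=
            mul_lt_mul_of_pos_left (mul_lt_mul_of_pos_left h5 h6) hCpos
        _ = (C.card : ℝ) ^ k := by
            field_simp
    linarith
  have hSdom : ∀ x ∈ C, ∃ y ∈ S, y = x ∨ G.Adj y x := by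
    intro x hx
    by_contra hcon
    push Not at hcon
    have : x ∈ C.filter (fun x => ∀ y ∈ S, ¬ (y = x ∨ G.Adj y x)) := by
      rw [mem_filter]
      exact ⟨hx, fun y hy h => by
        have := hcon y hy
        tauto⟩
    rw [hYe] at this
    simp at this
  obtain ⟨D, h1, h2, h3, h4⟩ := connect_dom G C S hX hSC hSdom
  refine ⟨D, by exact_mod_cast h1, h2, ?_, ?_⟩
  · rw [Set.ncard_coe_finset]
    omega
  · intro x hx hxD
    obtain ⟨y, hy, hyx⟩ := h4 x (mem_coe.1 hx) (fun h => hxD (mem_coe.2 h))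
    exact ⟨y, mem_coe.2 hy, hyx⟩

end Pool.Agent.Lib.MP_5babb6_co
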