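import Mathlib
import Pool.Agent.Lib.MP_5babb6_co.Dom

set_option autoImplicit false

/-!
The two main theorems.
-/

namespace Pool.Agent.Lib.MP_5babb6_co

open Finset Classical

variable {V : Type}

lemma model_of_star {G : SimpleGraph V} {r s : ℕ} (h : HasStarIn G r s Set.univ) :
    ∃ f : Fin r ⊕ Fin s → Set V,
      (∀ i, (G.induce (f i)).Connected) ∧
      Pairwise (fun i j => Disjoint (f i) (f j)) ∧
      (∀ a : Fin r, ∀ b : Fin s,
        ∃ x ∈ f (Sum.inl a), ∃ y ∈ f (Sum.inr b), G.Adj x y) ∧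
      (∀ a a' : Fin r, a ≠ a' →
        ∃ x ∈ f (Sum.inl a), ∃ y ∈ f (Sum.inl a'), G.Adj x y) ∧
      ∀ b : Fin s, ∃ v : V, f (Sum.inr b) = {v} := by
  obtain ⟨A, B, hB, -, -, hAc, hAd, hAA, hAB⟩ := h
  obtain ⟨e⟩ : Nonempty (Fin s ≃ B) := by
    rw [← Fintype.card_eq]
    simp [hB]
  refine ⟨Sum.elim A (fun j => {(e j : V)}), ?_, ?_, ?_, ?_, ?_⟩
  · rintro (i | j)
    · exact hAc i
    · exact connected_singleton G _
  · rintro (i | j) (k | l) hne
    · exact hAd i k (fun h => hne (by rw [h]))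
    · simp only [Sum.elim_inl, Sum.elim_inr]
      rw [Set.disjoint_singleton_right]
      exact (hAB i _ (e l).2).1
    · simp only [Sum.elim_inl, Sum.elim_inr]
      rw [Set.disjoint_singleton_left]
      exact (hAB k _ (e j).2).1
    · simp only [Sum.elim_inr]
      rw [Set.disjoint_singleton]
      intro h
      exact hne (by rw [e.injective (Subtype.ext h)])
  · intro a b
    obtain ⟨-, x, hx, hxb⟩ := hAB a _ (e b).2
    exact ⟨x, hx, _, rfl, hxb⟩
  · intro a a' h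
    exact hAA a a' h
  · intro b
    exact ⟨_, rfl⟩

theorem bounded_alpha [Fintype V] (G : SimpleGraph V) (r s a : ℕ) (hr : 0 < r) (hs : 0 < s)
    (h : 4 * r * a ≤ s + 3 * r + 1)
    (ha : ∀ I : Finset V, G.IsIndepSet (I : Set V) → I.card ≤ a)
    (hcol : ¬ G.Colorable (r + s - 1)) : HasStarIn G r s Set.univ := by
  by_contra hno
  apply hcol
  refine core G r s (2 * a - 1) hr hs ?_ (domBound_of_indep G a _ ha) hno
  rcases a with _ | b
  · simp
  · have e1 : 2 * (b + 1) - 1 = 2 * b + 1 := by omega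
    rw [e1]
    nlinarith

theorem few_vertices [Fintype V] (G : SimpleGraph V) (r s : ℕ) (hr : 0 < r) (hs : 0 < s)
    (h : 12 * (r : ℝ) * Fintype.card V * Real.log (Fintype.card V) ≤
      ((r : ℝ) + s + 1) * (s + 1 - r))
    (hcol : ¬ G.Colorable (r + s - 1)) : HasStarIn G r s Set.univ := by
  by_contra hno
  apply hcol
  have hr' : (1 : ℝ) ≤ r := by exact_mod_cast hr
  have hs' : (1 : ℝ) ≤ s := by exact_mod_cast hs
  obtain ⟨t, ht⟩ : ∃ t : ℝ, t = (r : ℝ) + s + 1 := ⟨_, rfl⟩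
  have htpos : 0 < t := by rw [ht]; linarith
  obtain ⟨x, hx⟩ : ∃ x : ℝ, x = 2 * (Fintype.card V * Real.log (Fintype.card V)) / t :=
    ⟨_, rfl⟩
  have hL0 : (0 : ℝ) ≤ Fintype.card V * Real.log (Fintype.card V) := by
    rcases Nat.eq_zero_or_pos (Fintype.card V) with h0 | h0
    · rw [h0]
      simp
    · exact mul_nonneg (Nat.cast_nonneg _) (Real.log_nonneg (by exact_mod_cast h0))
  have hx0 : 0 ≤ x := by
    rw [hx]
    positivity
  obtain ⟨k, hk⟩ : ∃ k : ℕ, k = ⌊x⌋₊ + 1 := ⟨_, rfl⟩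
  have hxk : x < k := by
    rw [hk]
    push_cast
    exact Nat.lt_floor_add_one x
  have hkx : (k : ℝ) ≤ x + 1 := by
    rw [hk]
    push_cast
    have := Nat.floor_le hx0
    linarith
  have hk1 : 1 ≤ k := by omega
  have hcr : (2 : ℝ) * (r * (3 * k - 2 : ℝ)) ≤ r + s + 1 := by
    have h1 : x * t = 2 * (Fintype.card V * Real.log (Fintype.card V)) := by
      rw [hx]
      field_simp
    have h2 : 6 * (r : ℝ) * x * t ≤ t * (s + 1 - r) := by
      have : 6 * (r : ℝ) * x * t = 12 * (r : ℝ) * Fintype.card V * Real.log (Fintype.card V) := by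
        linear_combination (6 * (r : ℝ)) * h1
      rw [this, ht]
      exact h
    have h3 : 6 * (r : ℝ) * x ≤ s + 1 - r := by
      have h4 : t * (6 * (r : ℝ) * x) ≤ t * (s + 1 - r) := by linarith
      exact le_of_mul_le_mul_left h4 htpos
    nlinarith
  have hc : 2 * (r * (3 * k - 2)) ≤ r + s + 1 := by
    have e1 : ((3 * k - 2 : ℕ) : ℝ) = 3 * (k : ℝ) - 2 := by
      rw [Nat.cast_sub (by omega)]
      push_cast
      ring
    have : ((2 * (r * (3 * k - 2)) : ℕ) : ℝ) ≤ ((r + s + 1 : ℕ) : ℝ) := by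
      push_cast
      rw [e1]
      exact hcr
    exact_mod_cast this
  refine core G r s (3 * k - 2) hr hs hc (domBound_of_card G _ k ?_) hno
  -- the degree
  obtain ⟨c, hcdef⟩ : ∃ c, c = 3 * k - 2 := ⟨_, rfl⟩
  rw [← hcdef] at hc ⊢
  have hc1 : 1 ≤ c := by omega
  have h1 : (r - 1) * c + c = r * c := by
    obtain ⟨q, rfl⟩ : ∃ q, r = q + 1 := ⟨r - 1, by omega⟩
    rw [Nat.add_sub_cancel]
    ring
  have h2 : r + s + 1 ≤ 2 * ((r + s - 1 - (r - 1) * c) + 1) := by omega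
  have h3 : t ≤ 2 * (((r + s - 1 - (r - 1) * c : ℕ) : ℝ) + 1) := by
    rw [ht]
    exact_mod_cast h2
  have h4 : x * t = 2 * (Fintype.card V * Real.log (Fintype.card V)) := by
    rw [hx]
    field_simp
  have h5 : (Fintype.card V : ℝ) * Real.log (Fintype.card V) = x * (t / 2) := by linarith
  rw [h5]
  have h6 : t / 2 ≤ ((r + s - 1 - (r - 1) * c : ℕ) : ℝ) + 1 := by linarith
  have h7 : 0 < ((r + s - 1 - (r - 1) * c : ℕ) : ℝ) + 1 := by positivity
  calc x * (t / 2) ≤ x * (((r + s - 1 - (r - 1) * c : ℕ) : ℝ) + 1) :=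
        mul_le_mul_of_nonneg_left h6 hx0
    _ < k * (((r + s - 1 - (r - 1) * c : ℕ) : ℝ) + 1) := mul_lt_mul_of_pos_right hxk h7

end Pool.Agent.Lib.MP_5babb6_co
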